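import Mathlib
import Pool.Agent.H88.Fx1
import Pool.Agent.H88.FpDefs

open Pool.Agent.H88.Fp Pool.Agent.H88.Pex

theorem Pool.Agent.Results.MP_fdacb0_an.Yes.result (p : ℝ) (hp : 0 < p) (hp1 : p < 1) :
    ∃ (X : Type) (_ : AddCommGroup X) (_ : Module ℝ X) (ν : X → ℝ) (δ : X → X),
      IsPBanach ℝ p ν ∧ ¬FiniteDimensional ℝ X ∧ δ 0 = 0 ∧ (∀ x y, ν (δ x - δ y) = ν (x - y)) ∧
      (∀ μ, μ ∈ cspan ℝ ν δ Set.univ) ∧
      ∀ (Y : Type) [AddCommGroup Y] [Module ℝ Y] (η : Y → ℝ), IsPBanach ℝ p η →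
        ∀ (f : X → Y) (L : ℝ), f 0 = 0 → 0 ≤ L → (∀ x y, η (f x - f y) ≤ L * ν (x - y)) →
          ∃ T : X →ₗ[ℝ] Y, (∀ x, T (δ x) = f x) ∧ ∀ μ, η (T μ) ≤ L * ν μ := by
  obtain ⟨X, _, _, δ, l, h1, h2, ⟨e, he⟩, hl, d0, d1, d2, d3⟩ := H88.Fx.exists_fix hp hp1.le
  have hν : ∀ x : X, ‖x‖ = (‖x‖ ^ p⁻¹) ^ p := fun x =>
    (Real.rpow_inv_rpow (norm_nonneg _) hp.ne').symm
  have lift : ∀ (Y : Type) [AddCommGroup Y] [Module ℝ Y] (η : Y → ℝ), IsPBanach ℝ p η →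
      ∀ (f : X → Y) (L : ℝ), f 0 = 0 → 0 ≤ L → (∀ x y, η (f x - f y) ≤ L * ‖x - y‖ ^ p⁻¹) →
        ∃ T : X →ₗ[ℝ] Y, (∀ x, T (δ x) = f x) ∧ ∀ μ, η (T μ) ≤ L * ‖μ‖ ^ p⁻¹ := by
    intro Y _ _ η hY f L f0 L0 hf
    let := nacg hY hp
    have e : ∀ y : Y, ‖y‖ = η y ^ p := fun _ => rfl
    have : CompleteSpace Y := Metric.complete_of_cauchySeq_tendsto fun u hu => by
      obtain ⟨z, hz⟩ := hY.complete u fun ε hε => by
        simpa only [dist_eq_norm, e] using Metric.cauchySeq_iff.1 hu ε hε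
      exact ⟨z, tendsto_iff_norm_sub_tendsto_zero.2 (by simpa only [e] using hz)⟩
    have k : ∀ (y : Y) (x : X), η y ≤ L * ‖x‖ ^ p⁻¹ ↔ ‖y‖ ≤ L ^ p * ‖x‖ := fun y x => by
      rw [← Real.rpow_le_rpow_iff (hY.nonneg _) (by positivity) hp, Real.mul_rpow L0
        (by positivity), ← hν, e]
    simp only [k] at hf ⊢
    exact d3 Y (fun c y => by rw [e, e, hY.smul, Real.mul_rpow (norm_nonneg _) (hY.nonneg _)]) f _
      f0 (by positivity) hf
  refine ⟨X, inferInstance, inferInstance, fun x => ‖x‖ ^ p⁻¹, δ, h2.banach hp, fun hX => ?_, d0,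
    fun x y => ?_, fun μ => (mem_cspan (h2.banach hp) hp hν).2 (d2 μ), lift⟩
  · have : ∀ k : ℕ, ∃ T : X →ₗ[ℝ] ℝ, ∀ x, T (δ x) = max (1 - |l x - (k + 1)|) 0 := fun k => by
      obtain ⟨T, t, -⟩ := lift ℝ _ (H88.Ap.banach hp hp1.le ℝ)
        (fun x => max (1 - |l x - (k + 1)|) 0) 1 (by
          simp [abs_of_nonpos (show -1 + -(k : ℝ) ≤ 0 by linarith [k.cast_nonneg (α := ℝ)])])
        zero_le_one fun x y => (abs_max_sub_max_le_abs _ _ _).trans (by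
          rw [sub_sub_sub_cancel_left, one_mul, abs_sub_comm]
          refine (abs_abs_sub_abs_le_abs_sub _ _).trans ?_
          rw [sub_sub_sub_cancel_right, ← map_sub]
          exact (Real.le_rpow_inv_iff_of_pos (norm_nonneg _) (norm_nonneg _) hp).2 (hl _))
      exact ⟨T, t⟩
    choose T hT using this
    have := (LinearIndependent.of_pairwise_dual_eq_zero_one (fun k : ℕ => δ (((k : ℝ) + 1) • e)) T
      (fun i j hij => by
        have : (1 : ℝ) ≤ |(j : ℝ) - i| := by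
          exact_mod_cast Int.one_le_abs (sub_ne_zero.2 (Nat.cast_injective.ne hij.symm))
        simpa [hT, he] using this) fun i => by simp [hT, he]).finite
    exact not_finite ℕ
  · obtain ⟨β, b1, b2⟩ := d3 X h2 id 1 rfl zero_le_one (by simp)
    exact congrArg (· ^ p⁻¹) (le_antisymm (d1 x y) (by simpa [b1] using b2 (δ x - δ y)))
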